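import Pool.Agent.LE.Stmts2
import Pool.Agent.Helper6_Mob.Sep

/-!
# An event of positive probability occurs, after a translation, in each large cube
-/

set_option autoImplicit false
set_option linter.unusedSectionVars false

open MeasureTheory ProbabilityTheory Function

open scoped ENNReal BigOperators

noncomputable section

namespace Pool.Agent.LE.H26

open Pool.Agent.Anderson Pool.Agent.Loc Pool.Agent.Helper54.Bal

variable {d : ℕ}

/-- the sites on an axis -/
def sj (i₀ : Fin d) (a : Site d) (r j : ℕ) : Site d :=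
  fun i => a i + if i = i₀ then (j : ℤ) * (2 * r + 1) else 0

theorem sd_sj (i₀ : Fin d) (a : Site d) (r j : ℕ) : sd a (sj i₀ a r j) ≤ j * (2 * r + 1) := by
  rw [sd_le_iff]
  intro i
  unfold sj
  split_ifs
  · have : a i - (a i + (j : ℤ) * (2 * r + 1)) = -((j * (2 * r + 1) : ℕ) : ℤ) := by
      push_cast
      ring
    rw [this, abs_neg, Nat.abs_cast]
  · simp

theorem disj (i₀ : Fin d) (a : Site d) (r : ℕ) {j k : ℕ} (h : j < k) :
    Disjoint (box (sj i₀ a r j) r) (box (sj i₀ a r k) r) := by
  rw [Finset.disjoint_left]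
  intro x hx hy
  rw [mem_box, sd_le_iff] at hx hy
  have h1 := hx i₀
  have h2 := hy i₀
  unfold sj at h1 h2
  rw [if_pos rfl] at h1 h2
  have h3 : (j : ℤ) + 1 ≤ k := by exact_mod_cast h
  have h4 : ((j : ℤ) + 1) * (2 * r + 1) ≤ (k : ℤ) * (2 * r + 1) := by
    apply mul_le_mul_of_nonneg_right h3
    positivity
  have h5 : ((j : ℤ) + 1) * (2 * r + 1) = (j : ℤ) * (2 * r + 1) + (2 * r + 1) := by ring
  rw [h5] at h4
  rw [abs_le] at h1 h2
  have h6 := h1.1
  have h7 := h2.2
  linarith

/-- the event after a translation depends on the translated cube -/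
theorem tau_loc {T : Set (Site d → ℝ)} {r : ℕ}
    (hT : ∀ W W' : Site d → ℝ, (∀ x ∈ box (0 : Site d) r, W x = W' x) → (W ∈ T ↔ W' ∈ T))
    (s : Site d) (W W' : Site d → ℝ) (h : ∀ x ∈ box s r, W x = W' x) :
    (tau s W ∈ T ↔ tau s W' ∈ T) := by
  apply hT
  intro x hx
  apply h
  rw [mem_box, sd_le_iff] at hx ⊢
  intro i
  have h1 := hx i
  have h2 : s i - (x + s) i = (0 : Site d) i - x i := by
    rw [Pi.add_apply, Pi.zero_apply]
    ring
  rwa [h2]

theorem meas_inter {ν : Measure ℝ} [IsProbabilityMeasure ν] {T : Set (Site d → ℝ)} {r : ℕ}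
    (hm : MeasurableSet T)
    (hT : ∀ W W' : Site d → ℝ, (∀ x ∈ box (0 : Site d) r, W x = W' x) → (W ∈ T ↔ W' ∈ T))
    (i₀ : Fin d) (a : Site d) (k : ℕ) :
    PP d ν {V | ∀ j < k, tau (sj i₀ a r j) V ∈ T} = (PP d ν T) ^ k := by
  classical
  induction k with
  | zero =>
    have : {V : Site d → ℝ | ∀ j < 0, tau (sj i₀ a r j) V ∈ T} = Set.univ := by
      ext V
      simp
    rw [this, pow_zero, measure_univ]
  | succ k ih =>
    have e : {V : Site d → ℝ | ∀ j < k + 1, tau (sj i₀ a r j) V ∈ T} =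
        {V | ∀ j < k, tau (sj i₀ a r j) V ∈ T} ∩ {V | tau (sj i₀ a r k) V ∈ T} := by
      ext V
      simp only [Set.mem_ofPred_eq, Set.mem_inter_iff]
      constructor
      · intro h
        exact ⟨fun j hj => h j (by omega), h k (by omega)⟩
      · rintro ⟨h1, h2⟩ j hj
        rcases Nat.lt_succ_iff_lt_or_eq.1 hj with h | rfl
        · exact h1 j h
        · exact h2
    rw [e, Pool.Agent.Mob.H6.PP_inter ν
      (A := (Finset.range k).biUnion fun j => box (sj i₀ a r j) r) (B := box (sj i₀ a r k) r),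
      ih, pow_succ]
    · congr 1
      exact (shiftInv_PP ν (sj i₀ a r k)).measure_preimage hm.nullMeasurableSet
    · rw [Finset.disjoint_biUnion_left]
      intro j hj
      exact disj i₀ a r (Finset.mem_range.1 hj)
    · have : {V : Site d → ℝ | ∀ j < k, tau (sj i₀ a r j) V ∈ T} =
          ⋂ j ∈ Finset.range k, (tau (sj i₀ a r j)) ⁻¹' T := by
        ext V
        simp
      rw [this]
      exact Finset.measurableSet_biInter _ fun j _ => (measurable_tau _) hm
    · exact (measurable_tau _) hm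
    · intro W W' h
      simp only [Set.mem_ofPred_eq]
      refine forall_congr' fun j => forall_congr' fun hj => ?_
      apply tau_loc hT
      intro x hx
      apply h
      rw [Finset.mem_biUnion]
      exact ⟨j, Finset.mem_range.2 hj, hx⟩
    · intro W W' h
      exact tau_loc hT _ _ _ h

theorem exists_box (I : Finset (Site d)) : ∃ r : ℕ, I ⊆ box (0 : Site d) r := by
  refine ⟨I.sup fun x => sd 0 x, fun x hx => ?_⟩
  rw [mem_box]
  exact Finset.le_sup (f := fun x => sd 0 x) hx

theorem erg : ErgStmt := by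
  classical
  intro d ν _ S hd hS hpos ε hε
  set P := PP d ν with hP
  have hth : 0 < P.real S := ENNReal.toReal_pos hpos (measure_ne_top _ _)
  have hth1 : P.real S ≤ 1 := measureReal_le_one
  set th : ℝ := P.real S with hthdef
  obtain ⟨N, hN⟩ := exists_pow_lt_of_lt_one (by positivity : (0:ℝ) < ε / 2)
    (by linarith : 1 - th / 2 < 1)
  set η : ℝ := min (ε / (2 * (N + 1))) (th / 2) with hη
  have hη0 : 0 < η := lt_min (by positivity) (by positivity)
  obtain ⟨T, hTC, hTS⟩ := exists_measure_symmDiff_lt_of_generateFrom_isSetRing (μ := P)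
    (C := measurableCylinders fun _ : Site d => ℝ) isSetRing_measurableCylinders
    ⟨{Set.univ}, Set.countable_singleton _, by
      rw [Set.singleton_subset_iff]
      exact univ_mem_measurableCylinders _, by simp⟩
    generateFrom_measurableCylinders.symm hS (ENNReal.ofReal_pos.2 hη0)
  obtain ⟨I, A, hA, rfl⟩ := (mem_measurableCylinders _).1 hTC
  obtain ⟨r, hr⟩ := exists_box I
  set T : Set (Site d → ℝ) := cylinder I A with hTdef
  have hTm : MeasurableSet T := MeasurableSet.of_mem_measurableCylinders hTC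
  have hTloc : ∀ W W' : Site d → ℝ, (∀ x ∈ box (0 : Site d) r, W x = W' x) →
      (W ∈ T ↔ W' ∈ T) := by
    intro W W' h
    rw [hTdef, mem_cylinder, mem_cylinder]
    have : I.restrict W = I.restrict W' := by
      funext x
      exact h x (hr x.2)
    rw [this]
  have hTcloc : ∀ W W' : Site d → ℝ, (∀ x ∈ box (0 : Site d) r, W x = W' x) →
      (W ∈ Tᶜ ↔ W' ∈ Tᶜ) := by
    intro W W' h
    rw [Set.mem_compl_iff, Set.mem_compl_iff, hTloc W W' h]
  have h1 : P (T \ S) ≤ ENNReal.ofReal (ε / (2 * (N + 1))) := by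
    calc P (T \ S) ≤ P (symmDiff T S) := measure_mono (by
          rw [Set.symmDiff_def]
          exact Set.subset_union_left)
      _ ≤ ENNReal.ofReal η := hTS.le
      _ ≤ _ := ENNReal.ofReal_le_ofReal (min_le_left _ _)
  have h2 : P Tᶜ ≤ ENNReal.ofReal (1 - th / 2) := by
    have h3 : P (S \ T) ≤ ENNReal.ofReal (th / 2) := by
      calc P (S \ T) ≤ P (symmDiff T S) := measure_mono (by
            rw [Set.symmDiff_def]
            exact Set.subset_union_right)
        _ ≤ ENNReal.ofReal η := hTS.le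
        _ ≤ _ := ENNReal.ofReal_le_ofReal (min_le_right _ _)
    have h4 : P Tᶜ ≤ P Sᶜ + P (S \ T) := by
      calc P Tᶜ ≤ P (Sᶜ ∪ (S \ T)) := measure_mono fun V hV => by
            by_cases hs : V ∈ S
            · exact Or.inr ⟨hs, hV⟩
            · exact Or.inl hs
        _ ≤ _ := measure_union_le _ _
    have h5 : P Sᶜ = ENNReal.ofReal (1 - th) := by
      rw [prob_compl_eq_one_sub hS, ENNReal.ofReal_sub _ hth.le, ENNReal.ofReal_one, hthdef,
        ofReal_measureReal]
    calc P Tᶜ ≤ ENNReal.ofReal (1 - th) + ENNReal.ofReal (th / 2) := by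
          rw [← h5]
          exact h4.trans (by gcongr)
      _ = _ := by
          rw [← ENNReal.ofReal_add (by linarith) (by linarith)]
          congr 1
          ring
  refine ⟨N * (2 * r + 1), fun n hn a => ?_⟩
  have hsub : {V : Site d → ℝ | ∀ s ∈ box a n, tau s V ∉ S} ⊆
      {V | ∀ j < N, tau (sj ⟨0, hd⟩ a r j) V ∈ Tᶜ} ∪
        ⋃ j ∈ Finset.range N, (tau (sj ⟨0, hd⟩ a r j)) ⁻¹' (T \ S) := by
    intro V hV
    by_cases hc : ∀ j < N, tau (sj ⟨0, hd⟩ a r j) V ∈ Tᶜ
    · exact Or.inl hc
    · right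
      push Not at hc
      obtain ⟨j, hj, hjT⟩ := hc
      simp only [Set.mem_iUnion, Finset.mem_range]
      refine ⟨j, hj, ?_, ?_⟩
      · simpa using hjT
      · apply hV
        rw [mem_box]
        calc sd a (sj ⟨0, hd⟩ a r j) ≤ j * (2 * r + 1) := sd_sj _ _ _ _
          _ ≤ N * (2 * r + 1) := by gcongr
          _ ≤ n := hn
  calc P {V : Site d → ℝ | ∀ s ∈ box a n, tau s V ∉ S}
      ≤ P {V | ∀ j < N, tau (sj ⟨0, hd⟩ a r j) V ∈ Tᶜ} +
        P (⋃ j ∈ Finset.range N, (tau (sj ⟨0, hd⟩ a r j)) ⁻¹' (T \ S)) :=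
        (measure_mono hsub).trans (measure_union_le _ _)
    _ ≤ (P Tᶜ) ^ N + ∑ j ∈ Finset.range N, P ((tau (sj ⟨0, hd⟩ a r j)) ⁻¹' (T \ S)) := by
        gcongr
        · exact (meas_inter hTm.compl hTcloc _ _ _).le
        · exact measure_biUnion_finset_le _ _
    _ = (P Tᶜ) ^ N + N * P (T \ S) := by
        congr 1
        rw [Finset.sum_congr rfl fun j _ => (shiftInv_PP ν (sj ⟨0, hd⟩ a r j)).measure_preimage
          (hTm.diff hS).nullMeasurableSet]
        rw [Finset.sum_const, Finset.card_range, nsmul_eq_mul]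
    _ ≤ (ENNReal.ofReal (1 - th / 2)) ^ N + N * ENNReal.ofReal (ε / (2 * (N + 1))) := by
        gcongr
    _ ≤ ENNReal.ofReal (ε / 2) + ENNReal.ofReal (ε / 2) := by
        gcongr
        · rw [← ENNReal.ofReal_pow (by linarith)]
          exact ENNReal.ofReal_le_ofReal hN.le
        · rw [← ENNReal.ofReal_natCast, ← ENNReal.ofReal_mul (by positivity)]
          apply ENNReal.ofReal_le_ofReal
          rw [mul_div_assoc', div_le_div_iff₀ (by positivity) (by positivity)]
          nlinarith
    _ = ENNReal.ofReal ε := by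
        rw [← ENNReal.ofReal_add (by positivity) (by positivity)]
        congr 1
        ring

end Pool.Agent.LE.H26
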