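import Pool.Agent.LE.StmtsA

/-!
# The pigeonhole: near invariance under shifts at one scale and at one base point
-/

set_option autoImplicit false
set_option linter.unusedSectionVars false

open MeasureTheory ProbabilityTheory Function

open scoped ENNReal BigOperators

noncomputable section

namespace Pool.Agent.LE.H26A

open Pool.Agent.Anderson Pool.Agent.Loc Pool.Agent.Mob Pool.Agent.Helper54.Bal

variable {d : ℕ}

theorem sd_add' (a b : Site d) : sd a (a + b) = sd 0 b := by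
  apply le_antisymm
  · rw [sd_le_iff]
    intro i
    have h := (sd_le_iff.1 (le_refl (sd 0 b))) i
    have e : a i - (a + b) i = (0 : Site d) i - b i := by
      rw [Pi.add_apply, Pi.zero_apply]
      ring
    rwa [e]
  · rw [sd_le_iff]
    intro i
    have h := (sd_le_iff.1 (le_refl (sd a (a + b)))) i
    have e : (0 : Site d) i - b i = a i - (a + b) i := by
      rw [Pi.add_apply, Pi.zero_apply]
      ring
    rwa [e]

theorem sd_sm (l : ℕ) (y : Site d) : sd 0 (sm l y) ≤ l * sd 0 y := by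
  rw [sd_le_iff]
  intro i
  have h := (sd_le_iff.1 (le_refl (sd 0 y))) i
  have e : (0 : Site d) i - sm l y i = l * ((0 : Site d) i - y i) := by
    unfold sm
    rw [Pi.zero_apply]
    ring
  rw [e, abs_mul, Nat.abs_cast]
  push_cast
  exact mul_le_mul_of_nonneg_left h (by positivity)

theorem mem_add {a b : Site d} {R m N : ℕ} (ha : a ∈ box (0 : Site d) R) (hb : sd 0 b ≤ m)
    (h : R + m ≤ N) : a + b ∈ box (0 : Site d) N := by
  rw [mem_box] at ha ⊢
  calc sd 0 (a + b) ≤ sd 0 a + sd a (a + b) := sd_triangle _ _ _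
    _ ≤ R + m := by
        rw [sd_add']
        exact add_le_add ha hb
    _ ≤ N := h

/-! ### averages -/

theorem Av_add (R : ℕ) (f g : Site d → ℝ) : Av R (fun a => f a + g a) = Av R f + Av R g := by
  unfold Av
  rw [Finset.sum_add_distrib, add_div]

theorem Av_sum {ι : Type} (s : Finset ι) (R : ℕ) (f : ι → Site d → ℝ) :
    Av R (fun a => ∑ i ∈ s, f i a) = ∑ i ∈ s, Av R (f i) := by
  unfold Av
  rw [Finset.sum_comm, Finset.sum_div]

theorem Av_mono {R : ℕ} {f g : Site d → ℝ} (h : ∀ a ∈ box (0 : Site d) R, f a ≤ g a) :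
    Av R f ≤ Av R g := by
  unfold Av
  exact div_le_div_of_nonneg_right (Finset.sum_le_sum h) (by positivity)

theorem Av_const (R : ℕ) (c : ℝ) : Av R (fun _ : Site d => c) = c := by
  unfold Av
  rw [Finset.sum_const, card_box, nsmul_eq_mul]
  push_cast
  field_simp

theorem exists_le_Av (R : ℕ) (f : Site d → ℝ) : ∃ a ∈ box (0 : Site d) R, f a ≤ Av R f := by
  by_contra hcon
  push Not at hcon
  have hne : (box (0 : Site d) R).Nonempty := ⟨0, by rw [mem_box, sd_self]; exact Nat.zero_le _⟩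
  have h1 : ∑ a ∈ box (0 : Site d) R, Av R f < ∑ a ∈ box (0 : Site d) R, f a :=
    Finset.sum_lt_sum_of_nonempty hne hcon
  rw [Finset.sum_const, card_box, nsmul_eq_mul] at h1
  have h2 : (((2 * R + 1) ^ d : ℕ) : ℝ) * Av R f = ∑ a ∈ box (0 : Site d) R, f a := by
    unfold Av
    push_cast
    field_simp
  rw [h2] at h1
  exact lt_irrefl _ h1

/-! ### integrals -/

section

variable {N : ℕ} {Ω : Type} [MeasurableSpace Ω] {P : Measure Ω} [IsProbabilityMeasure P] {C : ℝ}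
  {D : Ω → Site d → Site d → ℝ} (h : FamN d N P C D)

include h

theorem integrable_D {x y : Site d} (hx : x ∈ box (0 : Site d) N) (hy : y ∈ box (0 : Site d) N) :
    Integrable (fun ω => D ω x y) P :=
  ((memLp_two_iff_integrable_sq (h.meas x y).aestronglyMeasurable).2
    (h.int x hx y hy)).integrable one_le_two

theorem abs_le' {x y : Site d} (hx : x ∈ box (0 : Site d) N) (hy : y ∈ box (0 : Site d) N) :
    ∫ ω, |D ω x y| ∂P ≤ 1 + C * ((sd x y : ℝ) + 1) ^ 2 := by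
  calc ∫ ω, |D ω x y| ∂P ≤ ∫ ω, (1 + D ω x y ^ 2) ∂P := by
        refine integral_mono (integrable_D h hx hy).abs
          ((integrable_const _).add (h.int x hx y hy)) fun ω => ?_
        simp only
        have h1 : |D ω x y| ^ 2 = D ω x y ^ 2 := sq_abs _
        nlinarith [sq_nonneg (|D ω x y| - 1), abs_nonneg (D ω x y)]
    _ = 1 + ∫ ω, D ω x y ^ 2 ∂P := by
        rw [integral_add (integrable_const _) (h.int x hx y hy)]
        simp
    _ ≤ _ := by
        have := h.sq x hx y hy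
        linarith

end

theorem pig (hPho : PhoStmt) (hDbl : DblStmt) (hBlo : BloStmt) (hShi : ShiStmt)
    (hAvs : AvsStmt) : PigStmt := by
  classical
  intro d K W C ε hC hε hK
  obtain ⟨M₁, hM₁, HD⟩ := hDbl d K C hC hK
  obtain ⟨M₂, hM₂, HB⟩ := hBlo d K C hC hK
  obtain ⟨M₃, hM₃, HS⟩ := hShi d K C hC hK
  set F : Finset (Site d) := box (0 : Site d) K with hF
  set c : ℝ := (F.card : ℝ) ^ 2 with hc
  have hFne : F.Nonempty := ⟨0, by rw [hF, mem_box, sd_self]; exact Nat.zero_le _⟩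
  have hFc : 0 < (F.card : ℝ) := by exact_mod_cast Finset.card_pos.2 hFne
  have hc0 : 0 < c := by positivity
  set η : ℝ := ε / (4 * c) with hη
  have hη0 : 0 < η := by positivity
  -- the number of scales in a block
  obtain ⟨q, hq1, hqn⟩ : ∃ q : ℕ, 1 ≤ q ∧ M₃ / (2 ^ q : ℕ) ≤ η := by
    obtain ⟨q, hq⟩ := pow_unbounded_of_one_lt (M₃ / η) (by norm_num : (1:ℝ) < 2)
    refine ⟨q + 1, by omega, ?_⟩
    have h2 : M₃ / η < (2 : ℝ) ^ (q + 1) :=
      hq.trans_le (pow_le_pow_right₀ (by norm_num) (Nat.le_succ q))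
    push_cast
    rw [div_le_iff₀ (by positivity)]
    rw [div_lt_iff₀ hη0] at h2
    linarith
  set n : ℕ := 2 ^ q with hn
  have hn1 : 1 ≤ n := Nat.one_le_two_pow
  set ε₁ : ℝ := η / (2 * (1 + n)) with hε₁
  have hε₁0 : 0 < ε₁ := by positivity
  set ε₂ : ℝ := min ε₁ (ε₁ ^ 2) with hε₂
  have hε₂0 : 0 < ε₂ := lt_min hε₁0 (by positivity)
  obtain ⟨J, HJ⟩ := hPho (2 * M₁) ε₂ F.card q (by positivity) hε₂0
  refine ⟨J, ⌈2 * M₂ / η⌉₊ + 1, by omega, fun ℓ₀ hℓ₀ => ?_⟩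
  have hℓ₀1 : 1 ≤ ℓ₀ := by omega
  have hsc : ∀ j : ℕ, 1 ≤ 2 ^ j * ℓ₀ := fun j => Nat.one_le_iff_ne_zero.2 (by positivity)
  have hℓM : ∀ j : ℕ, 2 * (M₂ / (2 ^ j * ℓ₀ : ℕ)) ≤ η := by
    intro j
    have h1 : 2 * M₂ / η ≤ (ℓ₀ : ℝ) := by
      calc 2 * M₂ / η ≤ (⌈2 * M₂ / η⌉₊ : ℝ) := Nat.le_ceil _
        _ ≤ ℓ₀ := by exact_mod_cast (by omega : ⌈2 * M₂ / η⌉₊ ≤ ℓ₀)
    have h2 : (ℓ₀ : ℝ) ≤ (2 ^ j * ℓ₀ : ℕ) := by
      exact_mod_cast Nat.le_mul_of_pos_left _ (by positivity)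
    have h3 : (0:ℝ) < (2 ^ j * ℓ₀ : ℕ) := by exact_mod_cast hsc j
    rw [div_le_iff₀ hη0] at h1
    rw [← mul_div_assoc, div_le_iff₀ h3]
    nlinarith
  -- the sizes of the cubes
  choose RD hRD using fun j : ℕ => HD (2 ^ j * ℓ₀) (hsc j)
  choose RB hRB using fun j : ℕ => HB (2 ^ j * ℓ₀) n (hsc j) hn1
  set S : ℕ := 2 ^ (J + q) * ℓ₀ with hS
  have hjS : ∀ j ≤ J + q, 2 ^ j * ℓ₀ ≤ S := fun j hj =>
    Nat.mul_le_mul_right _ (Nat.pow_le_pow_right (by norm_num) hj)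
  set Bd : ℝ := 2 * (1 + C * ((K * (n * S) : ℕ) + 1) ^ 2) with hBd
  obtain ⟨RA, hRA⟩ := hAvs d (K * S) Bd η hη0
  set R : ℕ := (Finset.range (J + q + 1)).sup RD + (Finset.range (J + q + 1)).sup RB + RA with hR
  have hRRD : ∀ j ≤ J + q, RD j ≤ R := by
    intro j hj
    have := Finset.le_sup (f := RD) (Finset.mem_range.2 (by omega : j < J + q + 1))
    omega
  have hRRB : ∀ j ≤ J + q, RB j ≤ R := by
    intro j hj
    have := Finset.le_sup (f := RB) (Finset.mem_range.2 (by omega : j < J + q + 1))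
    omega
  refine ⟨R + 8 * K * (n * S) + W * S, ?_⟩
  intro N hN Ω _ P _ D hD
  have hnS : S ≤ n * S := Nat.le_mul_of_pos_left _ (by omega)
  have hKS : K * S ≤ K * (n * S) := Nat.mul_le_mul_left _ hnS
  -- the sequences
  set h' : Site d → ℕ → ℝ := fun y j => hA P D R y (2 ^ (min j (J + q)) * ℓ₀) with hh'
  set s' : Site d → ℕ → ℝ := fun y j => sA P D R y (2 ^ (min j (J + q)) * ℓ₀) with hs'
  set v' : Site d → ℕ → ℝ := fun y j => if j < J + q then vA P D R y (2 ^ j * ℓ₀) else 0 with hv'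
  set e' : ℕ → ℝ := fun j => M₁ / (2 ^ j * ℓ₀ : ℕ) with he'
  have hDj : ∀ j ≤ J + q, ∀ y ∈ F, |hA P D R y (2 ^ j * ℓ₀)| ≤ M₁ ∧
      |sA P D R y (2 ^ j * ℓ₀)| ≤ M₁ ∧ 0 ≤ vA P D R y (2 ^ j * ℓ₀) ∧
      hA P D R y (2 * (2 ^ j * ℓ₀)) ≤ hA P D R y (2 ^ j * ℓ₀) + M₁ / (2 ^ j * ℓ₀ : ℕ) ∧
      sA P D R y (2 * (2 ^ j * ℓ₀)) ≤ sA P D R y (2 ^ j * ℓ₀) - vA P D R y (2 ^ j * ℓ₀) / 4 +
        M₁ / (2 ^ j * ℓ₀ : ℕ) := by
    intro j hj y hy
    refine hRD j R N (hRRD j hj) ?_ Ω P D hD y (by rwa [hF, mem_box] at hy)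
    have h1 := hjS j hj
    have h2 : 4 * K * (2 ^ j * ℓ₀) ≤ 4 * K * (n * S) :=
      Nat.mul_le_mul_left _ (h1.trans hnS)
    have h3 : 8 * K * (n * S) = 4 * K * (n * S) + 4 * K * (n * S) := by ring
    omega
  have hsucc : ∀ j, 2 ^ (j + 1) * ℓ₀ = 2 * (2 ^ j * ℓ₀) := fun j => by ring
  obtain ⟨j, hjJ, Hj⟩ := HJ (Site d) F le_rfl h' s' v' e'
    (by
      intro y hy j
      simp only [hh', he']
      rcases lt_or_ge j (J + q) with hj | hj
      · rw [min_eq_left (by omega : j + 1 ≤ J + q), min_eq_left hj.le, hsucc]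
        exact (hDj j hj.le y hy).2.2.2.1
      · rw [min_eq_right (by omega : J + q ≤ j + 1), min_eq_right hj]
        have : 0 ≤ M₁ / ((2 ^ j * ℓ₀ : ℕ) : ℝ) := by positivity
        linarith)
    (by
      intro y hy j
      have := (hDj (min j (J + q)) (min_le_right _ _) y hy).1
      simp only [hh']
      linarith)
    (by
      intro y hy j
      simp only [hs', he', hv']
      rcases lt_or_ge j (J + q) with hj | hj
      · rw [min_eq_left (by omega : j + 1 ≤ J + q), min_eq_left hj.le, hsucc, if_pos hj]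
        exact (hDj j hj.le y hy).2.2.2.2
      · rw [min_eq_right (by omega : J + q ≤ j + 1), min_eq_right hj, if_neg (by omega)]
        have : 0 ≤ M₁ / ((2 ^ j * ℓ₀ : ℕ) : ℝ) := by positivity
        linarith)
    (by
      intro y hy j
      have := (hDj (min j (J + q)) (min_le_right _ _) y hy).2.1
      simp only [hs']
      linarith)
    (by
      intro y hy j
      simp only [hv']
      split_ifs with hj
      · exact (hDj j hj.le y hy).2.2.1
      · exact le_rfl)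
    (by
      intro j
      simp only [he']
      positivity)
    (by
      intro m
      simp only [he']
      have h1 : ∀ j ∈ Finset.range m, M₁ / ((2 ^ j * ℓ₀ : ℕ) : ℝ) ≤ M₁ * (1 / 2) ^ j := by
        intro j _
        have hℓ : (1:ℝ) ≤ ℓ₀ := by exact_mod_cast hℓ₀1
        have h2 : ((1:ℝ) / 2) ^ j = 1 / 2 ^ j := by rw [div_pow, one_pow]
        push_cast
        rw [h2, mul_one_div]
        apply div_le_div_of_nonneg_left hM₁.le (by positivity)
        nlinarith [pow_pos (by norm_num : (0:ℝ) < 2) j]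
      calc ∑ j ∈ Finset.range m, M₁ / ((2 ^ j * ℓ₀ : ℕ) : ℝ)
          ≤ ∑ j ∈ Finset.range m, M₁ * (1 / 2) ^ j := Finset.sum_le_sum h1
        _ = M₁ * ∑ j ∈ Finset.range m, ((1:ℝ) / 2) ^ j := by rw [Finset.mul_sum]
        _ ≤ M₁ * 2 := by
            gcongr
            rw [geom_sum_eq (by norm_num)]
            have h3 : (0:ℝ) < (1 / 2) ^ m := by positivity
            rw [div_le_iff_of_neg (by norm_num)]
            linarith
        _ = 2 * M₁ := by ring)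
  set ℓ : ℕ := 2 ^ j * ℓ₀ with hℓ
  have hℓ1 : 1 ≤ ℓ := hsc j
  have hℓS : ℓ ≤ S := hjS j (by omega)
  have hℓpos : (0:ℝ) < ℓ := by exact_mod_cast hℓ1
  have hnℓ : 2 ^ (j + q) * ℓ₀ = n * ℓ := by
    rw [hn, hℓ, pow_add]
    ring
  have hHB : ∀ y ∈ F, Av R (fun a => ∫ ω, |D ω a (a + sm ℓ y) / ℓ -
      D ω a (a + sm (n * ℓ) y) / (n * ℓ)| ∂P) ≤ ε₁ + n * ε₁ + M₂ / ℓ := by
    intro y hy
    have h1 := Hj y hy
    refine hRB j R N (hRRB j (by omega)) ?_ Ω P D hD y ε₁ (by rwa [hF, mem_box] at hy) hε₁0.le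
      ?_ ?_
    · have h2 : 4 * K * (n * (2 ^ j * ℓ₀)) ≤ 4 * K * (n * S) :=
        Nat.mul_le_mul_left _ (Nat.mul_le_mul_left _ hℓS)
      have h3 : 8 * K * (n * S) = 4 * K * (n * S) + 4 * K * (n * S) := by ring
      omega
    · have h2 := h1.1
      simp only [hh'] at h2
      rw [min_eq_left (by omega : j ≤ J + q), min_eq_left (by omega : j + q ≤ J + q), hnℓ] at h2
      exact h2.trans (min_le_left _ _)
    · have h2 := h1.2
      simp only [hv'] at h2
      rw [if_pos (by omega : j < J + q)] at h2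
      exact h2.trans (min_le_right _ _)
  -- sites
  have hNn : R + K * S + K * (n * S) ≤ N := by
    have h3 : 8 * K * (n * S) = 8 * (K * (n * S)) := by ring
    omega
  have hsml : ∀ y : Site d, sd 0 y ≤ K → sd 0 (sm ℓ y) ≤ K * S := by
    intro y hy
    calc sd 0 (sm ℓ y) ≤ ℓ * sd 0 y := sd_sm _ _
      _ ≤ S * K := Nat.mul_le_mul hℓS hy
      _ = K * S := Nat.mul_comm _ _
  have hsmn : ∀ y : Site d, sd 0 y ≤ K → sd 0 (sm (n * ℓ) y) ≤ K * (n * S) := by
    intro y hy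
    calc sd 0 (sm (n * ℓ) y) ≤ (n * ℓ) * sd 0 y := sd_sm _ _
      _ ≤ (n * S) * K := Nat.mul_le_mul (Nat.mul_le_mul_left _ hℓS) hy
      _ = K * (n * S) := Nat.mul_comm _ _
  have m1 : ∀ a ∈ box (0 : Site d) (R + K * S), a ∈ box (0 : Site d) N := by
    intro a ha
    exact box_mono _ (by omega) ha
  have m2 : ∀ a ∈ box (0 : Site d) (R + K * S), ∀ y : Site d, sd 0 y ≤ K →
      a + sm ℓ y ∈ box (0 : Site d) N := fun a ha y hy =>
    mem_add ha (hsml y hy) (by omega)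
  have m3 : ∀ a ∈ box (0 : Site d) (R + K * S), ∀ y : Site d, sd 0 y ≤ K →
      a + sm (n * ℓ) y ∈ box (0 : Site d) N := fun a ha y hy =>
    mem_add ha (hsmn y hy) hNn
  have m4 : ∀ a ∈ box (0 : Site d) R, ∀ k : Site d, sd 0 k ≤ K →
      a + sm ℓ k ∈ box (0 : Site d) (R + K * S) := fun a ha k hk =>
    mem_add ha (hsml k hk) le_rfl
  have m0 : ∀ a ∈ box (0 : Site d) R, a ∈ box (0 : Site d) (R + K * S) := fun a ha =>
    box_mono _ (by omega) ha
  have hn0 : (0:ℝ) < n := by exact_mod_cast hn1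
  have hn1' : (1:ℝ) ≤ n := by exact_mod_cast hn1
  have hℓ1' : (1:ℝ) ≤ ℓ := by exact_mod_cast hℓ1
  set f : Site d → Site d → ℝ := fun y a => ∫ ω, |D ω a (a + sm ℓ y) / ℓ -
      D ω a (a + sm (n * ℓ) y) / (n * ℓ)| ∂P with hf
  set T : Site d → Site d → Site d → ℝ := fun y k a => ∫ ω, |D ω a (a + sm ℓ y) / ℓ -
      D ω (a + sm ℓ k) (a + sm ℓ k + sm ℓ y) / ℓ| ∂P with hT
  have hI : ∀ {x y : Site d} (c : ℝ), x ∈ box (0 : Site d) N → y ∈ box (0 : Site d) N →
      Integrable (fun ω => D ω x y / c) P := fun c hx hy => (integrable_D hD hx hy).div_const c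
  have hfB : ∀ y ∈ F, ∀ a ∈ box (0 : Site d) (R + K * S), |f y a| ≤ Bd := by
    intro y hy a ha
    rw [hF, mem_box] at hy
    have i1 := hI (ℓ : ℝ) (m1 a ha) (m2 a ha y hy)
    have i2 := hI ((n : ℝ) * ℓ) (m1 a ha) (m3 a ha y hy)
    have b1 := abs_le' hD (m1 a ha) (m2 a ha y hy)
    have b2 := abs_le' hD (m1 a ha) (m3 a ha y hy)
    rw [sd_add'] at b1 b2
    have c1 : (sd 0 (sm ℓ y) : ℝ) ≤ (K * (n * S) : ℕ) := by
      exact_mod_cast (hsml y hy).trans hKS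
    have c2 : (sd 0 (sm (n * ℓ) y) : ℝ) ≤ (K * (n * S) : ℕ) := by
      exact_mod_cast hsmn y hy
    have e1 : ∫ ω, |D ω a (a + sm ℓ y)| ∂P ≤ 1 + C * ((K * (n * S) : ℕ) + 1) ^ 2 :=
      b1.trans (by gcongr)
    have e2 : ∫ ω, |D ω a (a + sm (n * ℓ) y)| ∂P ≤ 1 + C * ((K * (n * S) : ℕ) + 1) ^ 2 :=
      b2.trans (by gcongr)
    have i1' := (integrable_D hD (m1 a ha) (m2 a ha y hy)).abs
    have i2' := (integrable_D hD (m1 a ha) (m3 a ha y hy)).abs
    have h0 : 0 ≤ f y a := integral_nonneg fun ω => abs_nonneg _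
    rw [abs_of_nonneg h0]
    calc f y a ≤ ∫ ω, (|D ω a (a + sm ℓ y)| + |D ω a (a + sm (n * ℓ) y)|) ∂P := by
          refine integral_mono (i1.sub i2).abs (i1'.add i2') fun ω => ?_
          simp only
          refine (abs_sub _ _).trans (add_le_add ?_ ?_)
          · rw [abs_div, abs_of_pos hℓpos]
            exact div_le_self (abs_nonneg _) hℓ1'
          · rw [abs_div, abs_of_pos (by positivity : (0:ℝ) < n * ℓ)]
            exact div_le_self (abs_nonneg _) (by nlinarith)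
      _ = ∫ ω, |D ω a (a + sm ℓ y)| ∂P + ∫ ω, |D ω a (a + sm (n * ℓ) y)| ∂P :=
          integral_add i1' i2'
      _ ≤ Bd := by
          rw [hBd]
          linarith
  have hTle : ∀ y ∈ F, ∀ k ∈ F, ∀ a ∈ box (0 : Site d) R,
      T y k a ≤ f y a + η + f y (a + sm ℓ k) := by
    intro y hy k hk a ha
    rw [hF, mem_box] at hy hk
    have ha' := m0 a ha
    have hb' := m4 a ha k hk
    have i1 := hI (ℓ : ℝ) (m1 a ha') (m2 a ha' y hy)
    have i2 := hI ((n : ℝ) * ℓ) (m1 a ha') (m3 a ha' y hy)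
    have i3 := hI (ℓ : ℝ) (m1 _ hb') (m2 _ hb' y hy)
    have i4 := hI ((n : ℝ) * ℓ) (m1 _ hb') (m3 _ hb' y hy)
    have hs : ∫ ω, |D ω a (a + sm (n * ℓ) y) / (n * ℓ) -
        D ω (a + sm ℓ k) (a + sm ℓ k + sm (n * ℓ) y) / (n * ℓ)| ∂P ≤ η := by
      refine (HS N ℓ n hℓ1 hn1 Ω P D hD a y k hy hk ?_).trans hqn
      intro x hx
      rw [mem_box] at hx ha ⊢
      have h1 : 4 * K * (n * ℓ) ≤ 4 * K * (n * S) :=
        Nat.mul_le_mul_left _ (Nat.mul_le_mul_left _ hℓS)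
      have h2 : 8 * K * (n * S) = 4 * K * (n * S) + 4 * K * (n * S) := by ring
      have h3 := sd_triangle 0 a x
      omega
    have j1 : Integrable (fun ω => |D ω a (a + sm ℓ y) / ℓ -
        D ω a (a + sm (n * ℓ) y) / (n * ℓ)|) P := (i1.sub i2).abs
    have j2 : Integrable (fun ω => |D ω a (a + sm (n * ℓ) y) / (n * ℓ) -
        D ω (a + sm ℓ k) (a + sm ℓ k + sm (n * ℓ) y) / (n * ℓ)|) P := (i2.sub i4).abs
    have j3 : Integrable (fun ω => |D ω (a + sm ℓ k) (a + sm ℓ k + sm ℓ y) / ℓ -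
        D ω (a + sm ℓ k) (a + sm ℓ k + sm (n * ℓ) y) / (n * ℓ)|) P := (i3.sub i4).abs
    have j12 : Integrable (fun ω => |D ω a (a + sm ℓ y) / ℓ -
        D ω a (a + sm (n * ℓ) y) / (n * ℓ)| + |D ω a (a + sm (n * ℓ) y) / (n * ℓ) -
        D ω (a + sm ℓ k) (a + sm ℓ k + sm (n * ℓ) y) / (n * ℓ)|) P := j1.add j2
    calc T y k a ≤ ∫ ω, (|D ω a (a + sm ℓ y) / ℓ - D ω a (a + sm (n * ℓ) y) / (n * ℓ)| +
          |D ω a (a + sm (n * ℓ) y) / (n * ℓ) -
            D ω (a + sm ℓ k) (a + sm ℓ k + sm (n * ℓ) y) / (n * ℓ)| +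
          |D ω (a + sm ℓ k) (a + sm ℓ k + sm ℓ y) / ℓ -
            D ω (a + sm ℓ k) (a + sm ℓ k + sm (n * ℓ) y) / (n * ℓ)|) ∂P := by
          refine integral_mono (i1.sub i3).abs (j12.add j3) fun ω => ?_
          simp only
          have t1 := abs_sub_le (D ω a (a + sm ℓ y) / ℓ) (D ω a (a + sm (n * ℓ) y) / (n * ℓ))
            (D ω (a + sm ℓ k) (a + sm ℓ k + sm ℓ y) / ℓ)
          have t2 := abs_sub_le (D ω a (a + sm (n * ℓ) y) / (n * ℓ))
            (D ω (a + sm ℓ k) (a + sm ℓ k + sm (n * ℓ) y) / (n * ℓ))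
            (D ω (a + sm ℓ k) (a + sm ℓ k + sm ℓ y) / ℓ)
          have t3 := abs_sub_comm (D ω (a + sm ℓ k) (a + sm ℓ k + sm (n * ℓ) y) / (n * ℓ))
            (D ω (a + sm ℓ k) (a + sm ℓ k + sm ℓ y) / ℓ)
          linarith
      _ = f y a + ∫ ω, |D ω a (a + sm (n * ℓ) y) / (n * ℓ) -
            D ω (a + sm ℓ k) (a + sm ℓ k + sm (n * ℓ) y) / (n * ℓ)| ∂P + f y (a + sm ℓ k) := by
          rw [integral_add j12 j3, integral_add j1 j2]
      _ ≤ _ := by linarith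
  have hAvT : ∀ y ∈ F, ∀ k ∈ F, Av R (T y k) ≤ 4 * η := by
    intro y hy k hk
    have h1 : Av R (T y k) ≤ Av R (fun a => f y a + η + f y (a + sm ℓ k)) :=
      Av_mono (hTle y hy k hk)
    rw [Av_add, Av_add, Av_const] at h1
    have h2 := hRA R (by omega) (f y) (sm ℓ k) (hsml k (by rwa [hF, mem_box] at hk)) (hfB y hy)
    have h3 := (abs_le.1 h2).2
    have h4 := hHB y hy
    have h5 : Av R (f y) ≤ ε₁ + n * ε₁ + M₂ / ℓ := h4
    have h6 := hℓM j
    have h7 : 2 * (ε₁ + n * ε₁) = η := by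
      rw [hε₁]
      field_simp
    have h8 : 2 * (M₂ / (ℓ : ℝ)) ≤ η := h6
    linarith
  obtain ⟨a, haR, ha⟩ := exists_le_Av R (fun a => ∑ y ∈ F, ∑ k ∈ F, T y k a)
  have hsum : Av R (fun a => ∑ y ∈ F, ∑ k ∈ F, T y k a) ≤ ε := by
    rw [Av_sum]
    calc ∑ y ∈ F, Av R (fun a => ∑ k ∈ F, T y k a) = ∑ y ∈ F, ∑ k ∈ F, Av R (T y k) := by
          refine Finset.sum_congr rfl fun y _ => ?_
          rw [Av_sum]
      _ ≤ ∑ y ∈ F, ∑ k ∈ F, 4 * η := Finset.sum_le_sum fun y hy =>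
          Finset.sum_le_sum fun k hk => hAvT y hy k hk
      _ = ε := by
          rw [Finset.sum_const, Finset.sum_const, nsmul_eq_mul, nsmul_eq_mul, hη, hc]
          field_simp
  refine ⟨j, hjJ, a, ?_, ?_⟩
  · intro x hx
    rw [mem_box] at hx haR ⊢
    have h1 : W * (2 ^ j * ℓ₀) ≤ W * S := Nat.mul_le_mul_left _ hℓS
    have h3 := sd_triangle 0 a x
    omega
  · intro y k hy hk
    have hT0 : ∀ y' k' : Site d, 0 ≤ T y' k' a := fun y' k' => integral_nonneg fun ω => abs_nonneg _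
    have h1 : T y k a ≤ ∑ y ∈ F, ∑ k ∈ F, T y k a := by
      have h2 : T y k a ≤ ∑ k ∈ F, T y k a :=
        Finset.single_le_sum (f := fun k => T y k a) (fun k' _ => hT0 y k')
          (by rw [hF, mem_box]; exact hk)
      exact h2.trans (Finset.single_le_sum (f := fun y => ∑ k ∈ F, T y k a)
        (fun y' _ => Finset.sum_nonneg fun k' _ => hT0 y' k') (by rw [hF, mem_box]; exact hy))
    have h2 : T y k a ≤ ε := h1.trans (ha.trans hsum)
    have h3 : T y k a = (∫ ω, |D ω a (a + sm ℓ y) -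
        D ω (a + sm ℓ k) (a + sm ℓ k + sm ℓ y)| ∂P) / ℓ := by
      simp only [hT]
      rw [← integral_div]
      refine integral_congr_ae (Filter.Eventually.of_forall fun ω => ?_)
      simp only
      rw [← sub_div, abs_div, abs_of_pos hℓpos]
    rw [h3, div_le_iff₀ hℓpos] at h2
    exact h2

end Pool.Agent.LE.H26A
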